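import Pool.Agent.H58.RainbowMain

set_option autoImplicit false

/-!
There is a constant `c` such that every non-complete graph of order `n` and minimum degree at least
`n / 2 + c` has rainbow connection number `2`.

Idea. Let the danger graph at scale `s` join non-adjacent pairs with at most `s` common neighbours.
Odd closed walks in it are long (each of its edges is almost a complementary pair), which lets one
choose a scale `T` such that the danger graph at scale `T ^ 3` is bipartite, while at every scale
`j > T` every vertex has at most `18 j ^ 4` dangerous partners. Colour the edges by the bipartition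
(an edge inside a class gets colour `0`, a crossing edge colour `1`) and flip every edge
independently with probability `1 / T`; the asymmetric local lemma shows that with positive
probability every non-adjacent pair has a common neighbour seen in both colours.
-/

universe u

namespace Pool.Agent.Results.MP_dc75f9_co.HalfPlusConstant

open Finset Pool.Agent.H58.Danger Pool.Agent.H58.Rainbow

/-- A path is rainbow under the edge colouring `χ` if different edges of it get different colours. -/
def IsRainbow {V : Type u} {G : SimpleGraph V} {k : ℕ} (χ : G.edgeSet → Fin k) {x y : V}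
    (p : G.Walk x y) : Prop :=
  ∀ e f : G.edgeSet, (e : Sym2 V) ∈ p.edges → (f : Sym2 V) ∈ p.edges → e ≠ f → χ e ≠ χ f

/-- The edge colouring `χ` makes `G` rainbow connected: any two vertices are joined by a rainbow
path. -/
def RainbowConnected {V : Type u} (G : SimpleGraph V) {k : ℕ} (χ : G.edgeSet → Fin k) : Prop :=
  ∀ x y : V, ∃ p : G.Walk x y, p.IsPath ∧ IsRainbow χ p

/-- The rainbow connection number: the least number of colours of an edge colouring that makes `G`
rainbow connected. -/
noncomputable def rc {V : Type u} (G : SimpleGraph V) : ℕ :=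
  sInf {k : ℕ | ∃ χ : G.edgeSet → Fin k, RainbowConnected G χ}

/-! ### Sanity checks -/

/-- For a finite connected graph the minimum defining `rc G` is attained. -/
theorem rc_spec {V : Type u} [Finite V] (G : SimpleGraph V) (hG : G.Connected) :
    ∃ χ : G.edgeSet → Fin (rc G), RainbowConnected G χ := by
  classical
  have : Fintype V := Fintype.ofFinite V
  have hne : {k : ℕ | ∃ χ : G.edgeSet → Fin k, RainbowConnected G χ}.Nonempty := by
    refine ⟨Fintype.card G.edgeSet, fun e => Fintype.equivFin G.edgeSet e, ?_⟩
    intro x y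
    obtain ⟨p, hp⟩ := (hG.preconnected x y).exists_isPath
    exact ⟨p, hp, fun e f _ _ hef h => hef ((Fintype.equivFin G.edgeSet).injective h)⟩
  exact Nat.sInf_mem hne

/-- A colouring with at most one colour makes only complete graphs rainbow connected. -/
theorem eq_top_of_rainbowConnected {V : Type u} {G : SimpleGraph V} {k : ℕ} (hk : k ≤ 1)
    (χ : G.edgeSet → Fin k) (h : RainbowConnected G χ) : G = ⊤ := by
  ext x y
  rw [SimpleGraph.top_adj]
  refine ⟨fun hxy => hxy.ne, fun hxy => ?_⟩
  obtain ⟨p, hp, hr⟩ := h x y
  have hsub : Subsingleton (Fin k) := by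
    rw [← not_nontrivial_iff_subsingleton, Fin.nontrivial_iff_two_le]
    omega
  have hlen : p.edges.length ≤ 1 := by
    by_contra hcon
    push Not at hcon
    have hnd : p.edges.Nodup := hp.isTrail.edges_nodup
    have h0 : 0 < p.edges.length := by omega
    have h1 : p.edges[0] ≠ p.edges[1] := by
      intro h'
      have := (List.Nodup.getElem_inj_iff hnd).mp h'
      omega
    have m0 : p.edges[0] ∈ p.edges := List.getElem_mem h0
    have m1 : p.edges[1] ∈ p.edges := List.getElem_mem hcon
    have e0 := p.edges_subset_edgeSet m0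
    have e1 := p.edges_subset_edgeSet m1
    refine hr ⟨_, e0⟩ ⟨_, e1⟩ m0 m1 ?_ (Subsingleton.elim _ _)
    intro h'
    exact h1 (congrArg Subtype.val h')
  rw [p.length_edges] at hlen
  have hpos : p.length ≠ 0 := fun h0 => hxy (SimpleGraph.Walk.eq_of_length_eq_zero h0)
  exact SimpleGraph.Walk.adj_of_length_eq_one (p := p) (by omega)

/-! ### The theorem -/

theorem rc_le_two {V : Type u} {G : SimpleGraph V} (χ : Sym2 V → Bool)
    (h : ∀ x y, x ≠ y → ¬ G.Adj x y → ∃ w, G.Adj x w ∧ G.Adj y w ∧ χ s(x, w) ≠ χ s(y, w)) :
    ∃ χ' : G.edgeSet → Fin 2, RainbowConnected G χ' := by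
  classical
  refine ⟨fun e => if χ (e : Sym2 V) = true then 1 else 0, ?_⟩
  intro x y
  by_cases hxy : x = y
  · subst hxy
    refine ⟨SimpleGraph.Walk.nil, SimpleGraph.Walk.IsPath.nil, ?_⟩
    intro e f he
    simp at he
  by_cases hadj : G.Adj x y
  · refine ⟨SimpleGraph.Walk.cons hadj SimpleGraph.Walk.nil, ?_, ?_⟩
    · rw [SimpleGraph.Walk.cons_isPath_iff]
      refine ⟨SimpleGraph.Walk.IsPath.nil, ?_⟩
      simpa using hxy
    · intro e f he hf hef
      simp only [SimpleGraph.Walk.edges_cons, SimpleGraph.Walk.edges_nil, List.mem_singleton]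
        at he hf
      exact absurd (Subtype.ext (he.trans hf.symm)) hef
  · obtain ⟨w, hxw, hyw, hne⟩ := h x y hxy hadj
    refine ⟨SimpleGraph.Walk.cons hxw (SimpleGraph.Walk.cons hyw.symm SimpleGraph.Walk.nil),
      ?_, ?_⟩
    · rw [SimpleGraph.Walk.cons_isPath_iff, SimpleGraph.Walk.cons_isPath_iff]
      refine ⟨⟨SimpleGraph.Walk.IsPath.nil, ?_⟩, ?_⟩
      · simpa using hyw.ne'
      · simp only [SimpleGraph.Walk.support_cons, SimpleGraph.Walk.support_nil, List.mem_cons,
          List.not_mem_nil, or_false, not_or]
        exact ⟨hxw.ne, hxy⟩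
    · have hsym : (s(w, y) : Sym2 V) = s(y, w) := Sym2.eq_swap
      intro e f he hf hef hcol
      simp only [SimpleGraph.Walk.edges_cons, SimpleGraph.Walk.edges_nil, List.mem_cons,
        List.not_mem_nil, or_false] at he hf
      rw [hsym] at he hf
      have hval : (e : Sym2 V) ≠ f := fun h' => hef (Subtype.ext h')
      have hcol' : χ (e : Sym2 V) = χ (f : Sym2 V) := by
        cases h1 : χ (e : Sym2 V) <;> cases h2 : χ (f : Sym2 V) <;> simp [h1, h2] at hcol ⊢
      rcases he with he | he <;> rcases hf with hf | hf
      · exact hval (he.trans hf.symm)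
      · rw [he, hf] at hcol'; exact hne hcol'
      · rw [he, hf] at hcol'; exact hne hcol'.symm
      · exact hval (he.trans hf.symm)

/-- **Answer to Q1 (yes).** There is a constant `c ≥ 0` such that every non-complete finite graph
`G` of order `n` with minimum degree at least `n / 2 + c` has rainbow connection number `2`. -/
theorem result : ∃ c : ℝ, 0 ≤ c ∧ ∀ (V : Type u) [Fintype V] (G : SimpleGraph V)
    [DecidableRel G.Adj], G ≠ ⊤ → (Fintype.card V : ℝ) / 2 + c ≤ (G.minDegree : ℝ) →
    rc G = 2 := by
  refine ⟨3000 ^ 3, by positivity, ?_⟩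
  intro V _ G _ hG hδ
  classical
  have hδ' : (Fintype.card V : ℝ) + 2 * 3000 ^ 3 ≤ 2 * (G.minDegree : ℝ) := by linarith
  have hδN : Fintype.card V + 2 * 3000 ^ 3 ≤ 2 * G.minDegree := by exact_mod_cast hδ'
  have hdeg : ∀ v, Fintype.card V ≤ 2 * G.degree v := by
    intro v
    have := G.minDegree_le_degree v
    omega
  have hcom : ∀ x y, x ≠ y → ¬ G.Adj x y → 3000 ^ 3 < (com G x y).card := by
    intro x y _ _
    have h1 := Finset.card_union_add_card_inter (G.neighborFinset x) (G.neighborFinset y)
    have h2 := G.minDegree_le_degree x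
    have h3 := G.minDegree_le_degree y
    have h4 := Finset.card_le_univ (G.neighborFinset x ∪ G.neighborFinset y)
    rw [G.card_neighborFinset_eq_degree, G.card_neighborFinset_eq_degree] at h1
    unfold com
    omega
  obtain ⟨χ, hχ⟩ := exists_colouring hdeg hcom
  have h2 : ∃ χ' : G.edgeSet → Fin 2, RainbowConnected G χ' := by
    apply rc_le_two χ
    intro x y hxy hadj
    obtain ⟨w, hw, hne⟩ := hχ x y hxy hadj
    rw [com, mem_inter, SimpleGraph.mem_neighborFinset, SimpleGraph.mem_neighborFinset] at hw
    exact ⟨w, hw.1, hw.2, hne⟩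
  apply le_antisymm
  · exact Nat.sInf_le h2
  · apply le_csInf ⟨2, h2⟩
    rintro k ⟨χ', hχ'⟩
    by_contra hcon
    exact hG (eq_top_of_rainbowConnected (by omega) χ' hχ')

end Pool.Agent.Results.MP_dc75f9_co.HalfPlusConstant
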